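import Pool.Agent.N583.PM.Sound

/-!
# A satisfying assignment gives two matchings
-/

set_option autoImplicit false

namespace Pool.Agent.N583.PM

open Pool.Agent.NPC

/-- case distinction on the residue modulo 5 -/
def cas (a0 a1 a2 a3 a4 : ℕ → ℕ) (v : ℕ) : ℕ :=
  if v % 5 = 0 then a0 (v / 5) else if v % 5 = 1 then a1 (v / 5)
  else if v % 5 = 2 then a2 (v / 5) else if v % 5 = 3 then a3 (v / 5) else a4 (v / 5)

section cas

variable (a0 a1 a2 a3 a4 : ℕ → ℕ) (b : ℕ)

theorem cas_0 : cas a0 a1 a2 a3 a4 (5 * b) = a0 b := by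
  unfold cas
  rw [if_pos (by omega), show 5 * b / 5 = b by omega]

theorem cas_1 : cas a0 a1 a2 a3 a4 (5 * b + 1) = a1 b := by
  unfold cas
  rw [if_neg (by omega), if_pos (by omega), show (5 * b + 1) / 5 = b by omega]

theorem cas_2 : cas a0 a1 a2 a3 a4 (5 * b + 2) = a2 b := by
  unfold cas
  rw [if_neg (by omega), if_neg (by omega), if_pos (by omega), show (5 * b + 2) / 5 = b by omega]

theorem cas_3 : cas a0 a1 a2 a3 a4 (5 * b + 3) = a3 b := by
  unfold cas
  rw [if_neg (by omega), if_neg (by omega), if_neg (by omega), if_pos (by omega),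
    show (5 * b + 3) / 5 = b by omega]

theorem cas_4 : cas a0 a1 a2 a3 a4 (5 * b + 4) = a4 b := by
  unfold cas
  rw [if_neg (by omega), if_neg (by omega), if_neg (by omega), if_neg (by omega),
    show (5 * b + 4) / 5 = b by omega]

end cas

section

variable (φ : F) (τ : ℕ → Bool) (pk : ℕ → ℕ)

/-- first matching, as a function from `U` to `V` -/
def f1 : ℕ → ℕ := cas (fun b => if τ (b / nn φ) = true then 5 * b else 5 * prv (nn φ) b + 1)
  (fun b => if τ (b / nn φ) = true then 5 * b + 1 else 5 * b) (fun b => 5 * b + 2)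
  (fun b => 5 * b + 3) (fun j => 5 * j + 4)

/-- its inverse -/
def g1 : ℕ → ℕ := cas (fun b => if τ (b / nn φ) = true then 5 * b else 5 * b + 1)
  (fun b => if τ (b / nn φ) = true then 5 * b + 1 else 5 * nxt (nn φ) b) (fun b => 5 * b + 2)
  (fun b => 5 * b + 3) (fun j => 5 * j + 4)

/-- second matching, as a function from `U` to `V` -/
def f2 : ℕ → ℕ := cas
  (fun b => if sg φ b = true then 5 * b + 2 else if pk (b % nn φ / 3) = b then 5 * b else 5 * b + 3)
  (fun b => if sg φ b = true then (if pk (b % nn φ / 3) = b then 5 * b else 5 * b + 3)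
    else 5 * b + 2)
  (fun b => 5 * b + 1)
  (fun b => if pk (b % nn φ / 3) = b then 5 * (b % nn φ / 3) + 4 else 5 * b)
  (fun j => 5 * pk j + 3)

/-- its inverse -/
def g2 : ℕ → ℕ := cas
  (fun b => if pk (b % nn φ / 3) = b then (if sg φ b = true then 5 * b + 1 else 5 * b)
    else 5 * b + 3)
  (fun b => 5 * b + 2)
  (fun b => if sg φ b = true then 5 * b else 5 * b + 1)
  (fun b => if pk (b % nn φ / 3) = b then 5 * (b % nn φ / 3) + 4
    else if sg φ b = true then 5 * b + 1 else 5 * b)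
  (fun j => 5 * pk j + 3)

variable {φ}

theorem pm_of {f g : ℕ → ℕ}
    (h1 : ∀ u ∈ verts φ, f u ∈ verts φ ∧ g (f u) = u ∧ ∃ c, (u, f u, c) ∈ edges φ)
    (h2 : ∀ v ∈ verts φ, g v ∈ verts φ ∧ f (g v) = v) :
    IsPerfectMatching (red φ) ((verts φ).toFinset.image fun u => (u, f u)) := by
  refine ⟨?_, ?_, ?_⟩
  · intro e he
    rw [Finset.mem_image] at he
    obtain ⟨u, hu, rfl⟩ := he
    exact (h1 u (List.mem_toFinset.1 hu)).2.2
  · intro u hu
    refine ⟨(u, f u), ⟨Finset.mem_image_of_mem _ (List.mem_toFinset.2 hu), rfl⟩, ?_⟩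
    rintro e ⟨he, heu⟩
    rw [Finset.mem_image] at he
    obtain ⟨w, hw, rfl⟩ := he
    change w = u at heu
    rw [heu]
  · intro v hv
    obtain ⟨h3, h4⟩ := h2 v hv
    refine ⟨(g v, v), ⟨?_, rfl⟩, ?_⟩
    · rw [Finset.mem_image]
      exact ⟨g v, List.mem_toFinset.2 h3, by rw [h4]⟩
    · rintro e ⟨he, hev⟩
      rw [Finset.mem_image] at he
      obtain ⟨w, hw, rfl⟩ := he
      change f w = v at hev
      have := (h1 w (List.mem_toFinset.1 hw)).2.1
      rw [← hev, this]

theorem mem0 {b : ℕ} (hb : b < nn φ * nn φ) : 5 * b ∈ verts φ :=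
  mem_verts.2 (Or.inl ⟨b, hb, by omega⟩)
theorem mem1 {b : ℕ} (hb : b < nn φ * nn φ) : 5 * b + 1 ∈ verts φ :=
  mem_verts.2 (Or.inl ⟨b, hb, by omega⟩)
theorem mem2 {b : ℕ} (hb : b < nn φ * nn φ) : 5 * b + 2 ∈ verts φ :=
  mem_verts.2 (Or.inl ⟨b, hb, by omega⟩)
theorem mem3 {b : ℕ} (hb : b < nn φ * nn φ) : 5 * b + 3 ∈ verts φ :=
  mem_verts.2 (Or.inl ⟨b, hb, by omega⟩)
theorem mem4 {j : ℕ} (hj : j < φ.length) : 5 * j + 4 ∈ verts φ :=
  mem_verts.2 (Or.inr ⟨j, hj, rfl⟩)

theorem mem_edges_of_block {b u v : ℕ} {c : Bool} (hb : b < nn φ * nn φ)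
    (h : (u, v, c) ∈ blockEdges φ b) : (u, v, c) ∈ edges φ := mem_edges.2 (Or.inl ⟨b, hb, h⟩)

theorem f1_ok (hne : φ ≠ []) : ∀ u ∈ verts φ,
    f1 φ τ u ∈ verts φ ∧ g1 φ τ (f1 φ τ u) = u ∧ (u, f1 φ τ u, true) ∈ edges φ := by
  have hN := nn_pos hne
  intro u hu
  rw [mem_verts] at hu
  rcases hu with ⟨b, hb, rfl | rfl | rfl | rfl⟩ | ⟨j, hj, rfl⟩
  · unfold f1
    rw [cas_0]
    by_cases h : τ (b / nn φ) = true
    · rw [if_pos h]
      refine ⟨mem0 hb, ?_, mem_edges_of_block hb (mem_blockEdges.2 (Or.inl ⟨rfl, by omega⟩))⟩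
      unfold g1
      rw [cas_0, if_pos h]
    · rw [if_neg h]
      have hp := prv_lt hN hb
      refine ⟨mem1 hp, ?_, mem_edges_of_block hp (mem_blockEdges.2 ?_)⟩
      · unfold g1
        rw [cas_1, prv_div hN, if_neg h, nxt_prv hN]
      · rw [nxt_prv hN]
        exact Or.inl ⟨rfl, by omega⟩
  · unfold f1
    rw [cas_1]
    by_cases h : τ (b / nn φ) = true
    · rw [if_pos h]
      refine ⟨mem1 hb, ?_, mem_edges_of_block hb (mem_blockEdges.2 (Or.inl ⟨rfl, by omega⟩))⟩
      unfold g1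
      rw [cas_1, if_pos h]
    · rw [if_neg h]
      refine ⟨mem0 hb, ?_, mem_edges_of_block hb (mem_blockEdges.2 (Or.inl ⟨rfl, by omega⟩))⟩
      unfold g1
      rw [cas_0, if_neg h]
  · unfold f1
    rw [cas_2]
    refine ⟨mem2 hb, ?_, mem_edges_of_block hb (mem_blockEdges.2 (Or.inl ⟨rfl, by omega⟩))⟩
    unfold g1
    rw [cas_2]
  · unfold f1
    rw [cas_3]
    refine ⟨mem3 hb, ?_, mem_edges_of_block hb (mem_blockEdges.2 (Or.inl ⟨rfl, by omega⟩))⟩
    unfold g1
    rw [cas_3]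
  · unfold f1
    rw [cas_4]
    refine ⟨mem4 hj, ?_, mem_edges.2 (Or.inr ⟨j, hj, rfl⟩)⟩
    unfold g1
    rw [cas_4]

theorem g1_ok (hne : φ ≠ []) : ∀ v ∈ verts φ,
    g1 φ τ v ∈ verts φ ∧ f1 φ τ (g1 φ τ v) = v := by
  have hN := nn_pos hne
  intro v hv
  rw [mem_verts] at hv
  rcases hv with ⟨b, hb, rfl | rfl | rfl | rfl⟩ | ⟨j, hj, rfl⟩
  · unfold g1
    rw [cas_0]
    by_cases h : τ (b / nn φ) = true
    · rw [if_pos h]
      refine ⟨mem0 hb, ?_⟩
      unfold f1
      rw [cas_0, if_pos h]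
    · rw [if_neg h]
      refine ⟨mem1 hb, ?_⟩
      unfold f1
      rw [cas_1, if_neg h]
  · unfold g1
    rw [cas_1]
    by_cases h : τ (b / nn φ) = true
    · rw [if_pos h]
      refine ⟨mem1 hb, ?_⟩
      unfold f1
      rw [cas_1, if_pos h]
    · rw [if_neg h]
      refine ⟨mem0 (nxt_lt hN hb), ?_⟩
      unfold f1
      rw [cas_0, nxt_div hN, if_neg h, prv_nxt hN]
  · unfold g1
    rw [cas_2]
    refine ⟨mem2 hb, ?_⟩
    unfold f1
    rw [cas_2]
  · unfold g1
    rw [cas_3]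
    refine ⟨mem3 hb, ?_⟩
    unfold f1
    rw [cas_3]
  · unfold g1
    rw [cas_4]
    refine ⟨mem4 hj, ?_⟩
    unfold f1
    rw [cas_4]

/-- the conditions on the choice of the blocks -/
def Pk (φ : F) (τ : ℕ → Bool) (pk : ℕ → ℕ) : Prop := ∀ j, j < φ.length →
  pk j < nn φ * nn φ ∧ pk j % nn φ / 3 = j ∧ (lit φ (pk j % nn φ)).2 = pk j / nn φ ∧
    sg φ (pk j) = τ (pk j / nn φ)

theorem f2_ok (hne : φ ≠ []) (hpk : Pk φ τ pk) : ∀ u ∈ verts φ,
    f2 φ pk u ∈ verts φ ∧ g2 φ pk (f2 φ pk u) = u ∧ ∃ c, (u, f2 φ pk u, c) ∈ edges φ := by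
  have hN := nn_pos hne
  have hlt : ∀ b, b % nn φ / 3 < φ.length := fun b => by
    have h2 : b % nn φ < 3 * φ.length := Nat.mod_lt _ hN
    omega
  intro u hu
  rw [mem_verts] at hu
  rcases hu with ⟨b, hb, rfl | rfl | rfl | rfl⟩ | ⟨j, hj, rfl⟩
  · unfold f2
    rw [cas_0]
    by_cases h : sg φ b = true
    · rw [if_pos h]
      refine ⟨mem2 hb, ?_, false, mem_edges_of_block hb (mem_blockEdges.2 ?_)⟩
      · unfold g2
        rw [cas_2, if_pos h]
      · rw [if_pos h]
        simp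
    · rw [if_neg h]
      by_cases h' : pk (b % nn φ / 3) = b
      · rw [if_pos h']
        refine ⟨mem0 hb, ?_, true, mem_edges_of_block hb (mem_blockEdges.2 (Or.inl ⟨rfl, by omega⟩))⟩
        unfold g2
        rw [cas_0, if_pos h', if_neg h]
      · rw [if_neg h']
        refine ⟨mem3 hb, ?_, false, mem_edges_of_block hb (mem_blockEdges.2 ?_)⟩
        · unfold g2
          rw [cas_3, if_neg h', if_neg h]
        · rw [if_neg h, if_neg h]
          simp
  · unfold f2
    rw [cas_1]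
    by_cases h : sg φ b = true
    · rw [if_pos h]
      by_cases h' : pk (b % nn φ / 3) = b
      · rw [if_pos h']
        refine ⟨mem0 hb, ?_, true, mem_edges_of_block hb (mem_blockEdges.2 (Or.inl ⟨rfl, by omega⟩))⟩
        unfold g2
        rw [cas_0, if_pos h', if_pos h]
      · rw [if_neg h']
        refine ⟨mem3 hb, ?_, false, mem_edges_of_block hb (mem_blockEdges.2 ?_)⟩
        · unfold g2
          rw [cas_3, if_neg h', if_pos h]
        · rw [if_pos h, if_pos h]
          simp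
    · rw [if_neg h]
      refine ⟨mem2 hb, ?_, false, mem_edges_of_block hb (mem_blockEdges.2 ?_)⟩
      · unfold g2
        rw [cas_2, if_neg h]
      · rw [if_neg h]
        simp
  · unfold f2
    rw [cas_2]
    refine ⟨mem1 hb, ?_, false, mem_edges_of_block hb (mem_blockEdges.2 (by simp))⟩
    unfold g2
    rw [cas_1]
  · unfold f2
    rw [cas_3]
    by_cases h' : pk (b % nn φ / 3) = b
    · rw [if_pos h']
      have h3 := hpk _ (hlt b)
      rw [h'] at h3
      refine ⟨mem4 (hlt b), ?_, false, mem_edges_of_block hb (mem_blockEdges.2 ?_)⟩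
      · unfold g2
        rw [cas_4, h']
      · right
        refine ⟨rfl, ?_⟩
        right; right; right; right
        exact ⟨h3.2.2.1, Or.inl ⟨rfl, rfl⟩⟩
    · rw [if_neg h']
      refine ⟨mem0 hb, ?_, false, mem_edges_of_block hb (mem_blockEdges.2 (by simp))⟩
      unfold g2
      rw [cas_0, if_neg h']
  · unfold f2
    rw [cas_4]
    obtain ⟨h3, h4, h5, h6⟩ := hpk j hj
    refine ⟨mem3 h3, ?_, false, mem_edges_of_block h3 (mem_blockEdges.2 ?_)⟩
    · unfold g2
      rw [cas_3, h4, if_pos rfl]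
    · right
      refine ⟨rfl, ?_⟩
      right; right; right; right
      exact ⟨h5, Or.inr ⟨by rw [h4], rfl⟩⟩

theorem g2_ok (hne : φ ≠ []) (hpk : Pk φ τ pk) : ∀ v ∈ verts φ,
    g2 φ pk v ∈ verts φ ∧ f2 φ pk (g2 φ pk v) = v := by
  have hN := nn_pos hne
  have hlt : ∀ b, b % nn φ / 3 < φ.length := fun b => by
    have h2 : b % nn φ < 3 * φ.length := Nat.mod_lt _ hN
    omega
  intro v hv
  rw [mem_verts] at hv
  rcases hv with ⟨b, hb, rfl | rfl | rfl | rfl⟩ | ⟨j, hj, rfl⟩
  · unfold g2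
    rw [cas_0]
    by_cases h' : pk (b % nn φ / 3) = b
    · rw [if_pos h']
      by_cases h : sg φ b = true
      · rw [if_pos h]
        refine ⟨mem1 hb, ?_⟩
        unfold f2
        rw [cas_1, if_pos h, if_pos h']
      · rw [if_neg h]
        refine ⟨mem0 hb, ?_⟩
        unfold f2
        rw [cas_0, if_neg h, if_pos h']
    · rw [if_neg h']
      refine ⟨mem3 hb, ?_⟩
      unfold f2
      rw [cas_3, if_neg h']
  · unfold g2
    rw [cas_1]
    refine ⟨mem2 hb, ?_⟩
    unfold f2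
    rw [cas_2]
  · unfold g2
    rw [cas_2]
    by_cases h : sg φ b = true
    · rw [if_pos h]
      refine ⟨mem0 hb, ?_⟩
      unfold f2
      rw [cas_0, if_pos h]
    · rw [if_neg h]
      refine ⟨mem1 hb, ?_⟩
      unfold f2
      rw [cas_1, if_neg h]
  · unfold g2
    rw [cas_3]
    by_cases h' : pk (b % nn φ / 3) = b
    · rw [if_pos h']
      refine ⟨mem4 (hlt b), ?_⟩
      unfold f2
      rw [cas_4, h']
    · rw [if_neg h']
      by_cases h : sg φ b = true
      · rw [if_pos h]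
        refine ⟨mem1 hb, ?_⟩
        unfold f2
        rw [cas_1, if_pos h, if_neg h']
      · rw [if_neg h]
        refine ⟨mem0 hb, ?_⟩
        unfold f2
        rw [cas_0, if_neg h, if_neg h']
  · unfold g2
    rw [cas_4]
    obtain ⟨h3, h4, h5, h6⟩ := hpk j hj
    refine ⟨mem3 h3, ?_⟩
    unfold f2
    rw [cas_3, h4, if_pos rfl]

theorem f12_ne (hne : φ ≠ []) (hpk : Pk φ τ pk) : ∀ u ∈ verts φ, f1 φ τ u ≠ f2 φ pk u := by
  have hN := nn_pos hne
  have hlt : ∀ b, b % nn φ / 3 < φ.length := fun b => by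
    have h2 : b % nn φ < 3 * φ.length := Nat.mod_lt _ hN
    omega
  intro u hu
  rw [mem_verts] at hu
  unfold f1 f2
  rcases hu with ⟨b, hb, rfl | rfl | rfl | rfl⟩ | ⟨j, hj, rfl⟩
  · rw [cas_0, cas_0]
    by_cases h' : pk (b % nn φ / 3) = b
    · have h3 := (hpk _ (hlt b)).2.2.2
      rw [h'] at h3
      rw [← h3]
      split_ifs <;> omega
    · rw [if_neg h']
      split_ifs <;> omega
  · rw [cas_1, cas_1]
    by_cases h' : pk (b % nn φ / 3) = b
    · have h3 := (hpk _ (hlt b)).2.2.2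
      rw [h'] at h3
      rw [← h3]
      split_ifs <;> omega
    · rw [if_neg h']
      split_ifs <;> omega
  · rw [cas_2, cas_2]
    omega
  · rw [cas_3, cas_3]
    split_ifs <;> omega
  · rw [cas_4, cas_4]
    omega

end

theorem complete {φ : F} (hne : φ ≠ []) (hb : Bounded3 φ) (h : SAT3 φ) : COL2PM (red φ) := by
  obtain ⟨τ, hτ⟩ := h
  have hN := nn_pos hne
  -- choose a true literal in every clause
  have hsel : ∀ j, ∃ b, j < φ.length →
      b < nn φ * nn φ ∧ b % nn φ / 3 = j ∧ (lit φ (b % nn φ)).2 = b / nn φ ∧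
        sg φ b = τ (b / nn φ) := by
    intro j
    by_cases hj : j < φ.length
    · have hc : φ[j] ∈ φ := List.getElem_mem hj
      have key : ∀ k, k < 3 → (lit φ (3 * j + k)).2 < 3 * φ.length →
          τ (lit φ (3 * j + k)).2 = (lit φ (3 * j + k)).1 → ∃ b, j < φ.length →
          b < nn φ * nn φ ∧ b % nn φ / 3 = j ∧ (lit φ (b % nn φ)).2 = b / nn φ ∧
            sg φ b = τ (b / nn φ) := by
        intro k hk h1 h2
        have h3 : 3 * j + k < nn φ := by
          unfold nn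
          omega
        have h1' : (lit φ (3 * j + k)).2 < nn φ := h1
        have h4 : ((3 * j + k) + nn φ * (lit φ (3 * j + k)).2) % nn φ = 3 * j + k := by
          rw [Nat.add_mul_mod_self_left, Nat.mod_eq_of_lt h3]
        have h5 : ((3 * j + k) + nn φ * (lit φ (3 * j + k)).2) / nn φ =
            (lit φ (3 * j + k)).2 := by
          rw [Nat.add_mul_div_left _ _ hN, Nat.div_eq_of_lt h3, zero_add]
        refine ⟨(3 * j + k) + nn φ * (lit φ (3 * j + k)).2, fun _ => ⟨?_, ?_, ?_, ?_⟩⟩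
        · calc (3 * j + k) + nn φ * (lit φ (3 * j + k)).2
              < nn φ + nn φ * (lit φ (3 * j + k)).2 := by omega
            _ = nn φ * ((lit φ (3 * j + k)).2 + 1) := by ring
            _ ≤ nn φ * nn φ := Nat.mul_le_mul_left _ h1'
        · rw [h4]
          omega
        · rw [h4, h5]
        · unfold sg
          rw [h4, h5, h2]
      have hq : φ.getD j ((true, 0), (true, 0), (true, 0)) = φ[j] := List.getD_eq_getElem _ _ hj
      have l0 : lit φ (3 * j + 0) = φ[j].1 := by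
        unfold lit
        rw [if_pos (by omega), show (3 * j + 0) / 3 = j by omega, hq]
      have l1 : lit φ (3 * j + 1) = φ[j].2.1 := by
        unfold lit
        rw [if_neg (by omega), if_pos (by omega), show (3 * j + 1) / 3 = j by omega, hq]
      have l2 : lit φ (3 * j + 2) = φ[j].2.2 := by
        unfold lit
        rw [if_neg (by omega), if_neg (by omega), show (3 * j + 2) / 3 = j by omega, hq]
      obtain ⟨b0, b1, b2⟩ := hb _ hc
      rcases hτ _ hc with h1 | h1 | h1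
      · exact key 0 (by omega) (by rw [l0]; exact b0) (by rw [l0]; exact h1)
      · exact key 1 (by omega) (by rw [l1]; exact b1) (by rw [l1]; exact h1)
      · exact key 2 (by omega) (by rw [l2]; exact b2) (by rw [l2]; exact h1)
    · exact ⟨0, fun h => absurd h hj⟩
  choose pk hpk using hsel
  have hpk' : Pk φ τ pk := hpk
  refine ⟨red_isColouredBipartite hne, _, _,
    pm_of (fun u hu => ⟨(f1_ok τ hne u hu).1, (f1_ok τ hne u hu).2.1, true, (f1_ok τ hne u hu).2.2⟩)
      (g1_ok τ hne), pm_of (f2_ok τ pk hne hpk') (g2_ok τ pk hne hpk'), ?_, ?_⟩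
  · rw [Finset.disjoint_left]
    intro e h1 h2
    rw [Finset.mem_image] at h1 h2
    obtain ⟨u, hu, rfl⟩ := h1
    obtain ⟨w, hw, hwu⟩ := h2
    rw [Prod.mk.injEq] at hwu
    obtain ⟨rfl, h3⟩ := hwu
    exact f12_ne τ pk hne hpk' _ (List.mem_toFinset.1 hu) h3.symm
  · intro e he
    rw [Finset.mem_image] at he
    obtain ⟨u, hu, rfl⟩ := he
    exact (f1_ok τ hne u (List.mem_toFinset.1 hu)).2.2

/-- COL-2PM is hard. -/
theorem hardI_COL2PM : HardI COL2PM :=
  HardPr.toHardI (Pr := fun _ => True) (hardPr_SAT3b.trans poly_red (fun _ _ => trivial)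
    fun _ h => ⟨complete h.2.2 h.2.1, sound h.2.2⟩)

end Pool.Agent.N583.PM
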