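import Pool.Agent.NPC.Classes

/-!
# Two edge-disjoint perfect matchings, the first one of colour 1
-/

set_option autoImplicit false

namespace Pool.Agent.N583.PM

/-- Instances: the list of the vertices of `U`, the list of the vertices of `V`, and the list of the
edges `(u, v, c)`, between `u ∈ U` and `v ∈ V`; the colour of the edge is `1` if `c = true`, and `2`
if `c = false`. -/
abbrev Inst : Type := List ℕ × List ℕ × List (ℕ × ℕ × Bool)

/-- `B = (U, V, E)` is a 2-edge-coloured bipartite graph: the vertices are listed without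
repetition, the edges join vertices of `U` and `V`, and no edge has both colours. -/
def IsColouredBipartite (B : Inst) : Prop :=
  B.1.Nodup ∧ B.2.1.Nodup ∧ (∀ u v c, (u, v, c) ∈ B.2.2 → u ∈ B.1 ∧ v ∈ B.2.1) ∧
    ∀ u v, ¬ ((u, v, true) ∈ B.2.2 ∧ (u, v, false) ∈ B.2.2)

/-- `M` is a perfect matching of `B`: a set of edges covering every vertex exactly once. -/
def IsPerfectMatching (B : Inst) (M : Finset (ℕ × ℕ)) : Prop :=
  (∀ e ∈ M, ∃ c, (e.1, e.2, c) ∈ B.2.2) ∧ (∀ u ∈ B.1, ∃! e, e ∈ M ∧ e.1 = u) ∧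
    ∀ v ∈ B.2.1, ∃! e, e ∈ M ∧ e.2 = v

/-- The decision problem COL-2PM: `B` is a 2-edge-coloured bipartite graph which has two
edge-disjoint perfect matchings `M₁`, `M₂` such that all edges of `M₁` have colour `1`. -/
def COL2PM (B : Inst) : Prop :=
  IsColouredBipartite B ∧ ∃ M₁ M₂ : Finset (ℕ × ℕ),
    IsPerfectMatching B M₁ ∧ IsPerfectMatching B M₂ ∧ Disjoint M₁ M₂ ∧
    ∀ e ∈ M₁, (e.1, e.2, true) ∈ B.2.2

end Pool.Agent.N583.PM
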