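import Pool.Agent.N583.PM.Defs
import Pool.Agent.NPC.Dec
import Pool.Agent.H671R2.PolyAuto

/-!
# COL-2PM is in NP
-/

set_option autoImplicit false

namespace Pool.Agent.N583.PM

open Pool.Agent.NPC

/-- test for lists without repetition -/
def ndTest (l : List ℕ) : Bool :=
  l.zipIdx.all fun x => l.zipIdx.all fun y => decide (x.1 ≠ y.1 ∨ x.2 = y.2)

theorem ndTest_iff (l : List ℕ) : ndTest l = true ↔ l.Nodup := by
  unfold ndTest
  simp only [List.all_eq_true, decide_eq_true_eq]
  rw [List.nodup_iff_injective_getElem]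
  constructor
  · intro h i j hij
    have h1 := h (l[i], i.1) (by
      rw [List.mem_zipIdx_iff_getElem?]; simp) (l[j], j.1) (by
      rw [List.mem_zipIdx_iff_getElem?]; simp)
    simp only at h1 hij
    rcases h1 with h1 | h1
    · exact absurd hij h1
    · exact Fin.ext h1
  · rintro h ⟨x, i⟩ hx ⟨y, j⟩ hy
    rw [List.mem_zipIdx_iff_getElem?] at hx hy
    simp only at hx hy ⊢
    by_cases hxy : x = y
    · right
      obtain ⟨hi, hi'⟩ := List.getElem?_eq_some_iff.1 hx
      obtain ⟨hj, hj'⟩ := List.getElem?_eq_some_iff.1 hy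
      have := @h ⟨i, hi⟩ ⟨j, hj⟩ (by simp only; rw [hi', hj', hxy])
      simpa using this
    · exact Or.inl hxy

/-- test for graphs -/
def grTest (B : Inst) : Bool :=
  ndTest B.1 && (ndTest B.2.1 && (B.2.2.all (fun e => decide (e.1 ∈ B.1 ∧ e.2.1 ∈ B.2.1)) &&
    B.2.2.all (fun e => decide (¬ (e.2.2 = true ∧ (e.1, e.2.1, false) ∈ B.2.2)))))

theorem grTest_iff (B : Inst) : grTest B = true ↔ IsColouredBipartite B := by
  unfold grTest IsColouredBipartite
  simp only [Bool.and_eq_true, ndTest_iff, List.all_eq_true, decide_eq_true_eq]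
  refine and_congr Iff.rfl (and_congr Iff.rfl (and_congr ?_ ?_))
  · constructor
    · intro h u v c huv
      exact h _ huv
    · rintro h ⟨u, v, c⟩ huv
      exact h u v c huv
  · constructor
    · rintro h u v ⟨h1, h2⟩
      exact h _ h1 ⟨rfl, h2⟩
    · rintro h ⟨u, v, c⟩ huv ⟨h1, h2⟩
      simp only at h1
      subst h1
      exact h u v ⟨huv, h2⟩

/-- test for perfect matchings -/
def pmTest (B : Inst) (L : List (ℕ × ℕ)) : Bool :=
  L.all (fun e => decide ((e.1, e.2, true) ∈ B.2.2 ∨ (e.1, e.2, false) ∈ B.2.2)) &&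
    (B.1.all (fun u => L.any fun e => decide (e.1 = u)) &&
    (B.2.1.all (fun v => L.any fun e => decide (e.2 = v)) &&
    L.all (fun e => L.all fun e' => decide ((¬ (e.1 = e'.1) ∧ ¬ (e.2 = e'.2)) ∨ e = e'))))

theorem pmTest_imp {B : Inst} {L : List (ℕ × ℕ)} (h : pmTest B L = true) :
    IsPerfectMatching B L.toFinset := by
  unfold pmTest at h
  simp only [Bool.and_eq_true, List.all_eq_true, List.any_eq_true, decide_eq_true_eq] at h
  obtain ⟨h1, h2, h3, h4⟩ := h
  refine ⟨?_, ?_, ?_⟩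
  · intro e he
    rcases h1 e (List.mem_toFinset.1 he) with h | h
    · exact ⟨_, h⟩
    · exact ⟨_, h⟩
  · intro u hu
    obtain ⟨e, he, heu⟩ := h2 u hu
    refine ⟨e, ⟨List.mem_toFinset.2 he, heu⟩, ?_⟩
    rintro e' ⟨he', heu'⟩
    rcases h4 e' (List.mem_toFinset.1 he') e he with h | h
    · exact absurd (heu'.trans heu.symm) h.1
    · exact h
  · intro v hv
    obtain ⟨e, he, hev⟩ := h3 v hv
    refine ⟨e, ⟨List.mem_toFinset.2 he, hev⟩, ?_⟩
    rintro e' ⟨he', hev'⟩
    rcases h4 e' (List.mem_toFinset.1 he') e he with h | h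
    · exact absurd (hev'.trans hev.symm) h.2
    · exact h

theorem pmTest_of {B : Inst} {M : Finset (ℕ × ℕ)} (hB : IsColouredBipartite B)
    (h : IsPerfectMatching B M) : pmTest B M.toList = true := by
  obtain ⟨h1, h2, h3⟩ := h
  unfold pmTest
  simp only [Bool.and_eq_true, List.all_eq_true, List.any_eq_true, decide_eq_true_eq,
    Finset.mem_toList]
  refine ⟨?_, ?_, ?_, ?_⟩
  · intro e he
    obtain ⟨c, hc⟩ := h1 e he
    cases c
    · exact Or.inr hc
    · exact Or.inl hc
  · intro u hu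
    obtain ⟨e, ⟨he, heu⟩, -⟩ := h2 u hu
    exact ⟨e, he, heu⟩
  · intro v hv
    obtain ⟨e, ⟨he, hev⟩, -⟩ := h3 v hv
    exact ⟨e, he, hev⟩
  · intro e he e' he'
    by_cases h : (¬ (e.1 = e'.1) ∧ ¬ (e.2 = e'.2))
    · exact Or.inl h
    · right
      obtain ⟨c, hc⟩ := h1 e he
      obtain ⟨hu, hv⟩ := hB.2.2.1 _ _ _ hc
      by_cases h' : e.1 = e'.1
      · exact (h2 _ hu).unique ⟨he, rfl⟩ ⟨he', h'.symm⟩
      · have h'' : e.2 = e'.2 := by
          by_contra h''
          exact h ⟨h', h''⟩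
        exact (h3 _ hv).unique ⟨he, rfl⟩ ⟨he', h''.symm⟩

/-- the verifier -/
def ver (z : Inst × (List (ℕ × ℕ) × List (ℕ × ℕ))) : Bool :=
  grTest z.1 && (pmTest z.1 z.2.1 && (pmTest z.1 z.2.2 &&
    (z.2.1.all (fun e => decide (¬ e ∈ z.2.2)) &&
      z.2.1.all (fun e => decide ((e.1, e.2, true) ∈ z.1.2.2)))))

theorem poly_ndTest {α : Type} [TEnc α] {l : α → List ℕ} (hl : Poly l) :
    Poly (fun a => ndTest (l a)) := by
  unfold ndTest
  fun_prop

attribute [fun_prop] poly_ndTest

theorem poly_grTest {α : Type} [TEnc α] {f : α → Inst} (hf : Poly f) :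
    Poly (fun a => grTest (f a)) := by
  unfold grTest
  fun_prop

theorem poly_pmTest {α : Type} [TEnc α] {f : α → Inst} {l : α → List (ℕ × ℕ)} (hf : Poly f)
    (hl : Poly l) : Poly (fun a => pmTest (f a) (l a)) := by
  unfold pmTest
  fun_prop

attribute [fun_prop] poly_grTest poly_pmTest

theorem poly_ver : Poly ver := by
  unfold ver
  fun_prop

theorem sz_toList {B : Inst} {M : Finset (ℕ × ℕ)} (h : IsPerfectMatching B M) :
    sz M.toList ≤ sz B * (sz B + 1) + 1 := by
  have hE : sz B.2.2 ≤ sz B := by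
    obtain ⟨U, V, E⟩ := B
    simp only [sz_pair]
    omega
  have h1 : ∀ e ∈ M.toList, sz e ≤ sz B := by
    intro e he
    obtain ⟨c, hc⟩ := h.1 e (Finset.mem_toList.1 he)
    have := sz_le_of_mem hc
    obtain ⟨a, b⟩ := e
    simp only [sz_pair] at this ⊢
    have h3 := sz_pos c
    omega
  have h2 : M.toList.length ≤ sz B := by
    have h3 : M.toList ⊆ B.2.2.map (fun e => (e.1, e.2.1)) := by
      intro e he
      obtain ⟨c, hc⟩ := h.1 e (Finset.mem_toList.1 he)
      exact List.mem_map.2 ⟨_, hc, rfl⟩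
    have h4 := (List.subperm_of_subset M.nodup_toList h3).length_le
    rw [List.length_map] at h4
    have h5 := length_lt_sz B.2.2
    omega
  have h6 := sz_le_length_mul M.toList (sz B) h1
  calc sz M.toList ≤ M.toList.length * (sz B + 1) + 1 := h6
    _ ≤ sz B * (sz B + 1) + 1 := Nat.add_le_add_right (Nat.mul_le_mul_right _ h2) 1

/-- COL-2PM is in NP. -/
theorem inNPP_COL2PM : InNPP COL2PM := by
  refine inNPP_of poly_ver (2 * (Polynomial.X * (Polynomial.X + 1) + 1) + 1) fun B => ?_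
  constructor
  · rintro ⟨hB, M₁, M₂, h1, h2, hd, hc⟩
    refine ⟨(M₁.toList, M₂.toList), ?_, ?_⟩
    · have e1 := sz_toList h1
      have e2 := sz_toList h2
      simp only [sz_pair, Polynomial.eval_add, Polynomial.eval_mul, Polynomial.eval_X,
        Polynomial.eval_one, Polynomial.eval_ofNat]
      omega
    · unfold ver
      simp only [Bool.and_eq_true]
      refine ⟨(grTest_iff B).2 hB, pmTest_of hB h1, pmTest_of hB h2, ?_, ?_⟩
      · simp only [List.all_eq_true, decide_eq_true_eq, Finset.mem_toList]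
        exact fun e he => Finset.disjoint_left.1 hd he
      · simp only [List.all_eq_true, decide_eq_true_eq, Finset.mem_toList]
        exact hc
  · rintro ⟨⟨L₁, L₂⟩, -, h⟩
    unfold ver at h
    simp only [Bool.and_eq_true, List.all_eq_true, decide_eq_true_eq] at h
    obtain ⟨h1, h2, h3, h4, h5⟩ := h
    refine ⟨(grTest_iff B).1 h1, L₁.toFinset, L₂.toFinset, pmTest_imp h2, pmTest_imp h3, ?_, ?_⟩
    · rw [Finset.disjoint_left]
      intro e he he'
      exact h4 e (List.mem_toFinset.1 he) (List.mem_toFinset.1 he')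
    · intro e he
      exact h5 e (List.mem_toFinset.1 he)

end Pool.Agent.N583.PM
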