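import Pool.Agent.N583.PM.Defs
import Pool.Agent.NPC.Sat2
import Pool.Agent.H671R2.PolyAuto

/-!
# The reduction from 3SAT
-/

set_option autoImplicit false

namespace Pool.Agent.N583.PM

open Pool.Agent.NPC

/-- formulas -/
abbrev F : Type := List (Lit ℕ × Lit ℕ × Lit ℕ)

/-- the literal number `t` of the formula -/
def lit (φ : F) (t : ℕ) : Lit ℕ :=
  if t % 3 = 0 then (φ.getD (t / 3) ((true, 0), (true, 0), (true, 0))).1
  else if t % 3 = 1 then (φ.getD (t / 3) ((true, 0), (true, 0), (true, 0))).2.1
  else (φ.getD (t / 3) ((true, 0), (true, 0), (true, 0))).2.2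

/-- number of literals -/
def nn (φ : F) : ℕ := 3 * φ.length

/-- the next block in the same row, cyclically -/
def nxt (N b : ℕ) : ℕ := if b % N + 1 = N then b + 1 - N else b + 1

/-- the previous block in the same row, cyclically -/
def prv (N b : ℕ) : ℕ := if b % N = 0 then b + N - 1 else b - 1

/-- sign of the block -/
def sg (φ : F) (b : ℕ) : Bool := (lit φ (b % nn φ)).1

/-- the edges of the block `b` -/
def blockEdges (φ : F) (b : ℕ) : List (ℕ × ℕ × Bool) :=
  [(5 * b, 5 * b, true), (5 * b + 1, 5 * b, true), (5 * b + 1, 5 * b + 1, true),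
   (5 * nxt (nn φ) b, 5 * b + 1, true), (5 * b + 2, 5 * b + 2, true), (5 * b + 3, 5 * b + 3, true),
   (5 * b + 2, 5 * b + 1, false), (5 * b + 3, 5 * b, false),
   (if sg φ b = true then 5 * b else 5 * b + 1, 5 * b + 2, false),
   (if sg φ b = true then 5 * b + 1 else 5 * b, 5 * b + 3, false)] ++
  (if (lit φ (b % nn φ)).2 = b / nn φ then
    [(5 * b + 3, 5 * (b % nn φ / 3) + 4, false), (5 * (b % nn φ / 3) + 4, 5 * b + 3, false)]
   else [])

/-- all edges -/
def edges (φ : F) : List (ℕ × ℕ × Bool) :=
  (List.range (nn φ * nn φ)).flatMap (blockEdges φ) ++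
    (List.range φ.length).map (fun j => (5 * j + 4, 5 * j + 4, true))

/-- the vertices (on both sides) -/
def verts (φ : F) : List ℕ :=
  (List.range (nn φ * nn φ)).flatMap (fun b => [5 * b, 5 * b + 1, 5 * b + 2, 5 * b + 3]) ++
    (List.range φ.length).map (fun j => 5 * j + 4)

/-- the reduction -/
def red (φ : F) : Inst := (verts φ, verts φ, edges φ)

theorem poly_lit : Poly (fun p : F × ℕ => lit p.1 p.2) := by
  unfold lit
  fun_prop

theorem uPoly_nn : UPoly nn := UPoly.mul (UPoly.const 3) (UPoly.length Poly.id)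

theorem poly_nn : Poly nn := uPoly_nn.toPoly

attribute [fun_prop] poly_nn

theorem poly_lit' {α : Type} [TEnc α] {f : α → F} {g : α → ℕ} (hf : Poly f) (hg : Poly g) :
    Poly (fun a => lit (f a) (g a)) := poly_lit.comp (Poly.pair hf hg)

theorem poly_nn' {α : Type} [TEnc α] {f : α → F} (hf : Poly f) :
    Poly (fun a => nn (f a)) := poly_nn.comp hf

attribute [fun_prop] poly_lit' poly_nn'

theorem poly_red : Poly red := by
  have h2 : Poly (fun φ : F => List.range (nn φ * nn φ)) := (UPoly.mul uPoly_nn uPoly_nn).range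
  have h1 : Poly (fun φ : F => List.range φ.length) := (UPoly.length Poly.id).range
  have hb : Poly (fun p : F × ℕ => blockEdges p.1 p.2) := by
    unfold blockEdges nxt sg
    fun_prop
  have hv : Poly verts := by
    unfold verts
    fun_prop
  have he : Poly edges := by
    unfold edges
    fun_prop
  exact Poly.pair hv (Poly.pair hv he)

end Pool.Agent.N583.PM
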