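import Pool.Agent.N583.PM.Red

/-!
# Two matchings give a satisfying assignment, and conversely
-/

set_option autoImplicit false

namespace Pool.Agent.N583.PM

open Pool.Agent.NPC

theorem mem_verts {φ : F} {v : ℕ} : v ∈ verts φ ↔
    (∃ b, b < nn φ * nn φ ∧ (v = 5 * b ∨ v = 5 * b + 1 ∨ v = 5 * b + 2 ∨ v = 5 * b + 3)) ∨
      ∃ j, j < φ.length ∧ v = 5 * j + 4 := by
  unfold verts
  simp only [List.mem_append, List.mem_flatMap, List.mem_range, List.mem_cons, List.not_mem_nil,
    or_false, List.mem_map, eq_comm (a := v)]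

theorem verts_nodup (φ : F) : (verts φ).Nodup := by
  unfold verts
  rw [List.nodup_append']
  refine ⟨?_, ?_, ?_⟩
  · rw [List.nodup_flatMap]
    refine ⟨fun b _ => ?_, ?_⟩
    · simp
    · refine List.nodup_range.imp ?_
      intro a b hab
      simp only [Function.onFun, List.disjoint_left, List.mem_cons, List.not_mem_nil, or_false]
      omega
  · exact List.nodup_range.map fun a b h => by simpa using h
  · rw [List.disjoint_left]
    simp only [List.mem_flatMap, List.mem_range, List.mem_cons, List.not_mem_nil, or_false,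
      List.mem_map]
    rintro v ⟨b, _, hb⟩ ⟨j, _, hj⟩
    omega

theorem mem_edges {φ : F} {e : ℕ × ℕ × Bool} : e ∈ edges φ ↔
    (∃ b, b < nn φ * nn φ ∧ e ∈ blockEdges φ b) ∨
      ∃ j, j < φ.length ∧ e = (5 * j + 4, 5 * j + 4, true) := by
  unfold edges
  simp only [List.mem_append, List.mem_flatMap, List.mem_range, List.mem_map, eq_comm (a := e)]

theorem mem_blockEdges {φ : F} {b u v : ℕ} {c : Bool} : (u, v, c) ∈ blockEdges φ b ↔
    (c = true ∧ ((u = 5 * b ∧ v = 5 * b) ∨ (u = 5 * b + 1 ∧ v = 5 * b) ∨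
      (u = 5 * b + 1 ∧ v = 5 * b + 1) ∨ (u = 5 * nxt (nn φ) b ∧ v = 5 * b + 1) ∨
      (u = 5 * b + 2 ∧ v = 5 * b + 2) ∨ (u = 5 * b + 3 ∧ v = 5 * b + 3))) ∨
    (c = false ∧ ((u = 5 * b + 2 ∧ v = 5 * b + 1) ∨ (u = 5 * b + 3 ∧ v = 5 * b) ∨
      (u = (if sg φ b = true then 5 * b else 5 * b + 1) ∧ v = 5 * b + 2) ∨
      (u = (if sg φ b = true then 5 * b + 1 else 5 * b) ∧ v = 5 * b + 3) ∨
      ((lit φ (b % nn φ)).2 = b / nn φ ∧
        ((u = 5 * b + 3 ∧ v = 5 * (b % nn φ / 3) + 4) ∨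
          (u = 5 * (b % nn φ / 3) + 4 ∧ v = 5 * b + 3))))) := by
  unfold blockEdges
  generalize (if sg φ b = true then 5 * b else 5 * b + 1) = p
  generalize (if sg φ b = true then 5 * b + 1 else 5 * b) = q
  generalize nxt (nn φ) b = n
  by_cases h : (lit φ (b % nn φ)).2 = b / nn φ
  · simp only [h, if_true, List.cons_append, List.nil_append, List.mem_cons, Prod.mk.injEq,
      List.not_mem_nil, or_false, true_and]
    grind
  · simp only [h, if_false, List.cons_append, List.nil_append, List.mem_cons, Prod.mk.injEq,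
      List.not_mem_nil, or_false, false_and]
    grind

theorem nn_pos {φ : F} (h : φ ≠ []) : 0 < nn φ := by
  have := List.length_pos_iff.2 h
  unfold nn
  omega

theorem nxt_lt {N b : ℕ} (hN : 0 < N) (hb : b < N * N) : nxt N b < N * N := by
  unfold nxt
  have h1 := Nat.div_add_mod b N
  have h2 := Nat.mod_lt b hN
  have h3 : b / N < N := Nat.div_lt_of_lt_mul hb
  split_ifs with h
  · omega
  · have h4 : N * (b / N) + N ≤ N * N := by
      calc N * (b / N) + N = N * (b / N + 1) := by ring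
        _ ≤ N * N := Nat.mul_le_mul_left _ h3
    omega

theorem nxt_prv {N b : ℕ} (hN : 0 < N) : nxt N (prv N b) = b := by
  unfold nxt prv
  have h1 := Nat.div_add_mod b N
  have h2 := Nat.mod_lt b hN
  by_cases h : b % N = 0
  · rw [if_pos h]
    have h3 : (b + N - 1) % N + 1 = N := by
      rw [show b + N - 1 = (N - 1) + N * (b / N) by omega, Nat.add_mul_mod_self_left,
        Nat.mod_eq_of_lt (by omega)]
      omega
    rw [if_pos h3]
    omega
  · rw [if_neg h]
    have h3 : (b - 1) % N + 1 ≠ N := by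
      rw [show b - 1 = (b % N - 1) + N * (b / N) by omega, Nat.add_mul_mod_self_left,
        Nat.mod_eq_of_lt (by omega)]
      omega
    rw [if_neg h3]
    omega

theorem prv_nxt {N b : ℕ} (hN : 0 < N) : prv N (nxt N b) = b := by
  unfold nxt prv
  have h1 := Nat.div_add_mod b N
  have h2 := Nat.mod_lt b hN
  by_cases h : b % N + 1 = N
  · rw [if_pos h]
    have h3 : (b + 1 - N) % N = 0 := by
      rw [show b + 1 - N = N * (b / N) by omega, Nat.mul_mod_right]
    rw [if_pos h3]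
    omega
  · rw [if_neg h]
    have h3 : (b + 1) % N ≠ 0 := by
      rw [show b + 1 = (b % N + 1) + N * (b / N) by omega, Nat.add_mul_mod_self_left,
        Nat.mod_eq_of_lt (by omega)]
      omega
    rw [if_neg h3]
    omega

theorem prv_lt {N b : ℕ} (hN : 0 < N) (hb : b < N * N) : prv N b < N * N := by
  unfold prv
  have h1 := Nat.div_add_mod b N
  have h2 := Nat.mod_lt b hN
  have h3 : b / N < N := Nat.div_lt_of_lt_mul hb
  split_ifs with h
  · have h4 : N * (b / N) + N ≤ N * N := by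
      calc N * (b / N) + N = N * (b / N + 1) := by ring
        _ ≤ N * N := Nat.mul_le_mul_left _ h3
    omega
  · omega

theorem nxt_div {N b : ℕ} (hN : 0 < N) : nxt N b / N = b / N := by
  unfold nxt
  have h1 := Nat.div_add_mod b N
  have h2 := Nat.mod_lt b hN
  split_ifs with h
  · rw [show b + 1 - N = N * (b / N) by omega, Nat.mul_div_cancel_left _ hN]
  · rw [show b + 1 = (b % N + 1) + N * (b / N) by omega, Nat.add_mul_div_left _ _ hN,
      Nat.div_eq_of_lt (by omega)]
    omega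

theorem prv_div {N b : ℕ} (hN : 0 < N) : prv N b / N = b / N := by
  rw [← nxt_div hN, nxt_prv hN]

theorem red_isColouredBipartite {φ : F} (hne : φ ≠ []) : IsColouredBipartite (red φ) := by
  have hN := nn_pos hne
  refine ⟨verts_nodup φ, verts_nodup φ, ?_, ?_⟩
  · intro u v c h
    change u ∈ verts φ ∧ v ∈ verts φ
    have h' : (u, v, c) ∈ edges φ := h
    rw [mem_edges] at h'
    rw [mem_verts, mem_verts]
    rcases h' with ⟨b, hb, h⟩ | ⟨j, hj, h⟩
    · have h1 := nxt_lt hN hb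
      have h2 : b % nn φ < 3 * φ.length := Nat.mod_lt _ hN
      have h3 : b % nn φ / 3 < φ.length := by omega
      rw [mem_blockEdges] at h
      constructor
      · rcases h with ⟨-, h⟩ | ⟨-, h | h | h | h | ⟨-, h | h⟩⟩
        · rcases h with h | h | h | h | h | h
          · exact Or.inl ⟨b, hb, by omega⟩
          · exact Or.inl ⟨b, hb, by omega⟩
          · exact Or.inl ⟨b, hb, by omega⟩
          · exact Or.inl ⟨_, h1, by omega⟩
          · exact Or.inl ⟨b, hb, by omega⟩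
          · exact Or.inl ⟨b, hb, by omega⟩
        · exact Or.inl ⟨b, hb, by omega⟩
        · exact Or.inl ⟨b, hb, by omega⟩
        · refine Or.inl ⟨b, hb, ?_⟩
          rw [h.1]
          split_ifs <;> omega
        · refine Or.inl ⟨b, hb, ?_⟩
          rw [h.1]
          split_ifs <;> omega
        · exact Or.inl ⟨b, hb, by omega⟩
        · exact Or.inr ⟨_, h3, h.1⟩
      · rcases h with ⟨-, h⟩ | ⟨-, h | h | h | h | ⟨-, h | h⟩⟩
        · exact Or.inl ⟨b, hb, by omega⟩
        · exact Or.inl ⟨b, hb, by omega⟩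
        · exact Or.inl ⟨b, hb, by omega⟩
        · exact Or.inl ⟨b, hb, by omega⟩
        · exact Or.inl ⟨b, hb, by omega⟩
        · exact Or.inr ⟨_, h3, h.2⟩
        · exact Or.inl ⟨b, hb, by omega⟩
    · simp only [Prod.mk.injEq] at h
      exact ⟨Or.inr ⟨j, hj, h.1⟩, Or.inr ⟨j, hj, h.2.1⟩⟩
  · rintro u v ⟨h1, h2⟩
    have h1' : (u, v, true) ∈ edges φ := h1
    have h2' : (u, v, false) ∈ edges φ := h2
    rw [mem_edges] at h1' h2'
    have k1 : (u % 5 = 0 ∧ v % 5 = 0) ∨ (u % 5 = 1 ∧ v % 5 = 0) ∨ (u % 5 = 1 ∧ v % 5 = 1) ∨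
        (u % 5 = 0 ∧ v % 5 = 1) ∨ (u % 5 = 2 ∧ v % 5 = 2) ∨ (u % 5 = 3 ∧ v % 5 = 3) ∨
        (u % 5 = 4 ∧ v % 5 = 4) := by
      rcases h1' with ⟨b, hb, h⟩ | ⟨j, hj, h⟩
      · rw [mem_blockEdges] at h
        rcases h with ⟨-, h⟩ | ⟨h, -⟩
        · omega
        · cases h
      · simp only [Prod.mk.injEq] at h
        omega
    have k2 : (u % 5 = 2 ∧ v % 5 = 1) ∨ (u % 5 = 3 ∧ v % 5 = 0) ∨
        (v % 5 = 2 ∧ u % 5 < 2) ∨ (v % 5 = 3 ∧ u % 5 < 2) ∨ (u % 5 = 3 ∧ v % 5 = 4) ∨
        (u % 5 = 4 ∧ v % 5 = 3) := by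
      rcases h2' with ⟨b, hb, h⟩ | ⟨j, hj, h⟩
      · rw [mem_blockEdges] at h
        rcases h with ⟨h, -⟩ | ⟨-, h | h | h | h | ⟨-, h | h⟩⟩
        · cases h
        · omega
        · omega
        · split_ifs at h <;> omega
        · split_ifs at h <;> omega
        · omega
        · omega
      · simp at h
    omega

/-! ### From matchings to assignments -/

section Edges

variable {φ : F} {b u v : ℕ} {c : Bool}

theorem edge_v0 (h : (u, 5 * b, c) ∈ edges φ) :
    (c = true ∧ (u = 5 * b ∨ u = 5 * b + 1)) ∨ (c = false ∧ u = 5 * b + 3) := by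
  rw [mem_edges] at h
  rcases h with ⟨b', hb, h⟩ | ⟨j, hj, h⟩
  · rw [mem_blockEdges] at h
    rcases h with ⟨h0, h⟩ | ⟨h0, h | h | h | h | ⟨-, h | h⟩⟩
    · left
      refine ⟨h0, ?_⟩
      omega
    all_goals (right; refine ⟨h0, ?_⟩; omega)
  · simp only [Prod.mk.injEq] at h
    omega

theorem edge_u1 (h : (5 * b + 1, v, true) ∈ edges φ) : v = 5 * b ∨ v = 5 * b + 1 := by
  rw [mem_edges] at h
  rcases h with ⟨b', hb, h⟩ | ⟨j, hj, h⟩
  · rw [mem_blockEdges] at h
    rcases h with ⟨h0, h⟩ | ⟨h0, h⟩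
    · omega
    · cases h0
  · simp only [Prod.mk.injEq] at h
    omega

theorem edge_v1 (h : (u, 5 * b + 1, true) ∈ edges φ) : u = 5 * b + 1 ∨ u = 5 * nxt (nn φ) b := by
  rw [mem_edges] at h
  rcases h with ⟨b', hb, h⟩ | ⟨j, hj, h⟩
  · rw [mem_blockEdges] at h
    rcases h with ⟨h0, h⟩ | ⟨h0, h⟩
    · rcases h with h | h | h | h | h | h
      · omega
      · omega
      · omega
      · have : b' = b := by omega
        subst this
        exact Or.inr h.1
      · omega
      · omega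
    · cases h0
  · simp only [Prod.mk.injEq] at h
    omega

theorem edge_u0 (hN : 0 < nn φ) (h : (5 * nxt (nn φ) b, v, true) ∈ edges φ) :
    v = 5 * nxt (nn φ) b ∨ v = 5 * b + 1 := by
  rw [mem_edges] at h
  rcases h with ⟨b', hb, h⟩ | ⟨j, hj, h⟩
  · rw [mem_blockEdges] at h
    rcases h with ⟨h0, h⟩ | ⟨h0, h⟩
    · rcases h with h | h | h | h | h | h
      · omega
      · omega
      · omega
      · have h1 : nxt (nn φ) b = nxt (nn φ) b' := by omega
        have h2 := congrArg (prv (nn φ)) h1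
        rw [prv_nxt hN, prv_nxt hN] at h2
        subst h2
        exact Or.inr h.2
      · omega
      · omega
    · cases h0
  · simp only [Prod.mk.injEq] at h
    omega

theorem edge_u2 (h : (5 * b + 2, v, true) ∈ edges φ) : v = 5 * b + 2 := by
  rw [mem_edges] at h
  rcases h with ⟨b', hb, h⟩ | ⟨j, hj, h⟩
  · rw [mem_blockEdges] at h
    rcases h with ⟨h0, h⟩ | ⟨h0, h⟩
    · omega
    · cases h0
  · simp only [Prod.mk.injEq] at h
    omega

theorem edge_u4 (h : (5 * b + 4, v, true) ∈ edges φ) : v = 5 * b + 4 := by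
  rw [mem_edges] at h
  rcases h with ⟨b', hb, h⟩ | ⟨j, hj, h⟩
  · rw [mem_blockEdges] at h
    rcases h with ⟨h0, h⟩ | ⟨h0, h⟩
    · omega
    · cases h0
  · simp only [Prod.mk.injEq] at h
    omega

theorem edge_v2 (h : (u, 5 * b + 2, c) ∈ edges φ) :
    (c = true ∧ u = 5 * b + 2) ∨ (c = false ∧ u = if sg φ b = true then 5 * b else 5 * b + 1) := by
  rw [mem_edges] at h
  rcases h with ⟨b', hb, h⟩ | ⟨j, hj, h⟩
  · rw [mem_blockEdges] at h
    rcases h with ⟨h0, h⟩ | ⟨h0, h | h | h | h | ⟨-, h | h⟩⟩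
    · left
      exact ⟨h0, by omega⟩
    · omega
    · omega
    · right
      have : b' = b := by omega
      subst this
      exact ⟨h0, h.1⟩
    · omega
    · omega
    · omega
  · simp only [Prod.mk.injEq] at h
    omega

theorem edge_v4 (h : (u, 5 * b + 4, c) ∈ edges φ) : u = 5 * b + 4 ∨
    ∃ b', b' < nn φ * nn φ ∧ (lit φ (b' % nn φ)).2 = b' / nn φ ∧ u = 5 * b' + 3 ∧
      b = b' % nn φ / 3 := by
  rw [mem_edges] at h
  rcases h with ⟨b', hb, h⟩ | ⟨j, hj, h⟩
  · rw [mem_blockEdges] at h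
    rcases h with ⟨h0, h⟩ | ⟨h0, h | h | h | h | ⟨ha, h | h⟩⟩
    · omega
    · omega
    · omega
    · omega
    · omega
    · exact Or.inr ⟨b', hb, ha, h.1, by omega⟩
    · omega
  · simp only [Prod.mk.injEq] at h
    exact Or.inl (by omega)

end Edges

theorem IsPerfectMatching.left {B : Inst} {M : Finset (ℕ × ℕ)} (h : IsPerfectMatching B M) {u : ℕ}
    (hu : u ∈ B.1) : ∃ v, (u, v) ∈ M := by
  obtain ⟨e, ⟨h1, h2⟩, -⟩ := h.2.1 u hu
  obtain ⟨a, b⟩ := e
  subst h2
  exact ⟨b, h1⟩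

theorem IsPerfectMatching.right {B : Inst} {M : Finset (ℕ × ℕ)} (h : IsPerfectMatching B M) {v : ℕ}
    (hv : v ∈ B.2.1) : ∃ u, (u, v) ∈ M := by
  obtain ⟨e, ⟨h1, h2⟩, -⟩ := h.2.2 v hv
  obtain ⟨a, b⟩ := e
  subst h2
  exact ⟨a, h1⟩

theorem IsPerfectMatching.uniqL {B : Inst} {M : Finset (ℕ × ℕ)} (h : IsPerfectMatching B M)
    {u v v' : ℕ} (hu : u ∈ B.1) (h1 : (u, v) ∈ M) (h2 : (u, v') ∈ M) : v = v' := by
  have := (h.2.1 u hu).unique ⟨h1, rfl⟩ ⟨h2, rfl⟩
  simpa using this

theorem IsPerfectMatching.uniqR {B : Inst} {M : Finset (ℕ × ℕ)} (h : IsPerfectMatching B M)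
    {u u' v : ℕ} (hv : v ∈ B.2.1) (h1 : (u, v) ∈ M) (h2 : (u', v) ∈ M) : u = u' := by
  have := (h.2.2 v hv).unique ⟨h1, rfl⟩ ⟨h2, rfl⟩
  simpa using this

theorem lit_cases {φ : F} {c : Lit ℕ × Lit ℕ × Lit ℕ} {t : ℕ} (h : φ[t / 3]? = some c) :
    lit φ t = c.1 ∨ lit φ t = c.2.1 ∨ lit φ t = c.2.2 := by
  unfold lit
  rw [List.getD_eq_getElem?_getD, h, Option.getD_some]
  split_ifs
  · exact Or.inl rfl
  · exact Or.inr (Or.inl rfl)
  · exact Or.inr (Or.inr rfl)

theorem sound {φ : F} (hne : φ ≠ []) (h : COL2PM (red φ)) : SAT3 φ := by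
  classical
  obtain ⟨-, M₁, M₂, h1, h2, hd, hc⟩ := h
  have hN := nn_pos hne
  have hc' : ∀ u v, (u, v) ∈ M₁ → (u, v, true) ∈ edges φ := fun u v huv => hc _ huv
  have hd' : ∀ u v, (u, v) ∈ M₁ → (u, v) ∈ M₂ → False := fun u v ha hb =>
    Finset.disjoint_left.1 hd ha hb
  have he2 : ∀ u v, (u, v) ∈ M₂ → ∃ c, (u, v, c) ∈ edges φ := fun u v huv => h2.1 _ huv
  have mem0 : ∀ b, b < nn φ * nn φ → 5 * b ∈ verts φ := fun b hb =>
    mem_verts.2 (Or.inl ⟨b, hb, by omega⟩)
  have mem1 : ∀ b, b < nn φ * nn φ → 5 * b + 1 ∈ verts φ := fun b hb =>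
    mem_verts.2 (Or.inl ⟨b, hb, by omega⟩)
  have mem2 : ∀ b, b < nn φ * nn φ → 5 * b + 2 ∈ verts φ := fun b hb =>
    mem_verts.2 (Or.inl ⟨b, hb, by omega⟩)
  have mem3 : ∀ b, b < nn φ * nn φ → 5 * b + 3 ∈ verts φ := fun b hb =>
    mem_verts.2 (Or.inl ⟨b, hb, by omega⟩)
  have mem4 : ∀ j, j < φ.length → 5 * j + 4 ∈ verts φ := fun j hj =>
    mem_verts.2 (Or.inr ⟨j, hj, rfl⟩)
  -- the state is constant along rows
  have stA : ∀ b, b < nn φ * nn φ →
      ((5 * b, 5 * b) ∈ M₁ ↔ (5 * nxt (nn φ) b, 5 * nxt (nn φ) b) ∈ M₁) := by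
    intro b hb
    have hb' := nxt_lt hN hb
    constructor
    · intro hA
      obtain ⟨v, hv⟩ := h1.left (mem1 b hb)
      have hv1 : v = 5 * b + 1 := by
        rcases edge_u1 (hc' _ _ hv) with hv1 | hv1
        · exfalso
          subst hv1
          have := h1.uniqR (mem0 b hb) hA hv
          omega
        · exact hv1
      subst hv1
      obtain ⟨w, hw⟩ := h1.left (mem0 _ hb')
      rcases edge_u0 hN (hc' _ _ hw) with hw1 | hw1
      · rwa [hw1] at hw
      · exfalso
        subst hw1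
        have := h1.uniqR (mem1 b hb) hv hw
        omega
    · intro hA
      by_contra hB
      obtain ⟨u, hu⟩ := h1.right (mem0 b hb)
      have hu1 : u = 5 * b + 1 := by
        rcases edge_v0 (hc' _ _ hu) with ⟨-, hu1 | hu1⟩ | ⟨hu1, -⟩
        · subst hu1
          exact absurd hu hB
        · exact hu1
        · cases hu1
      subst hu1
      obtain ⟨w, hw⟩ := h1.right (mem1 b hb)
      rcases edge_v1 (hc' _ _ hw) with hw1 | hw1
      · subst hw1
        have := h1.uniqL (mem1 b hb) hu hw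
        omega
      · subst hw1
        have := h1.uniqL (mem0 _ hb') hA hw
        omega
  have stC : ∀ x t, x < nn φ → t < nn φ →
      ((5 * (x * nn φ), 5 * (x * nn φ)) ∈ M₁ ↔
        (5 * (x * nn φ + t), 5 * (x * nn φ + t)) ∈ M₁) := by
    intro x t hx
    induction t with
    | zero => intro _; simp
    | succ t ih =>
      intro ht
      rw [ih (by omega)]
      have hlt : x * nn φ + t < nn φ * nn φ := by
        calc x * nn φ + t < x * nn φ + nn φ := by omega
          _ = (x + 1) * nn φ := by ring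
          _ ≤ nn φ * nn φ := Nat.mul_le_mul_right _ hx
      rw [stA _ hlt]
      have hnx : nxt (nn φ) (x * nn φ + t) = x * nn φ + (t + 1) := by
        unfold nxt
        rw [show x * nn φ + t = t + nn φ * x by ring, Nat.add_mul_mod_self_left,
          Nat.mod_eq_of_lt (by omega), if_neg (by omega)]
        ring
      rw [hnx]
  refine ⟨fun x => decide ((5 * (x * nn φ), 5 * (x * nn φ)) ∈ M₁), fun c hcl => ?_⟩
  obtain ⟨j, hj, hjc⟩ := List.getElem_of_mem hcl
  -- the choice of the clause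
  obtain ⟨u, hu⟩ := h2.right (mem4 j hj)
  obtain ⟨col, hcol⟩ := he2 _ _ hu
  have hsel : ∃ b, b < nn φ * nn φ ∧ (lit φ (b % nn φ)).2 = b / nn φ ∧
      (5 * b + 3, 5 * j + 4) ∈ M₂ ∧ j = b % nn φ / 3 := by
    rcases edge_v4 hcol with h | ⟨b, hb, ha, hub, hjb⟩
    · exfalso
      subst h
      obtain ⟨w, hw⟩ := h1.left (mem4 j hj)
      have := edge_u4 (hc' _ _ hw)
      subst this
      exact hd' _ _ hw hu
    · subst hub
      exact ⟨b, hb, ha, hu, hjb⟩
  obtain ⟨b, hb, ha, hub, hjb⟩ := hsel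
  have hx : b / nn φ < nn φ := Nat.div_lt_of_lt_mul hb
  have ht : b % nn φ < nn φ := Nat.mod_lt _ hN
  have hbx : b / nn φ * nn φ + b % nn φ = b := Nat.div_add_mod' b _
  -- the state of the block
  have hr : ((if sg φ b = true then 5 * b else 5 * b + 1), 5 * b + 2) ∈ M₂ := by
    obtain ⟨w, hw⟩ := h2.right (mem2 b hb)
    obtain ⟨cw, hcw⟩ := he2 _ _ hw
    rcases edge_v2 hcw with ⟨-, h⟩ | ⟨-, h⟩
    · exfalso
      subst h
      obtain ⟨w', hw'⟩ := h1.left (mem2 b hb)
      have := edge_u2 (hc' _ _ hw')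
      subst this
      exact hd' _ _ hw' hw
    · rwa [h] at hw
  have hst : decide ((5 * b, 5 * b) ∈ M₁) = sg φ b := by
    obtain ⟨w, hw⟩ := h2.right (mem0 b hb)
    obtain ⟨cw, hcw⟩ := he2 _ _ hw
    have hw3 : w ≠ 5 * b + 3 := by
      rintro rfl
      have := h2.uniqL (mem3 b hb) hub hw
      omega
    have hw01 : w = 5 * b ∨ w = 5 * b + 1 := by
      rcases edge_v0 hcw with ⟨-, h⟩ | ⟨-, h⟩
      · exact h
      · exact absurd h hw3
    cases hs : sg φ b with
    | true =>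
      rw [hs, if_pos rfl] at hr
      have hw1 : w = 5 * b + 1 := by
        rcases hw01 with h | h
        · exfalso
          subst h
          have := h2.uniqL (mem0 b hb) hr hw
          omega
        · exact h
      subst hw1
      obtain ⟨z, hz⟩ := h1.right (mem0 b hb)
      rcases edge_v0 (hc' _ _ hz) with ⟨-, h | h⟩ | ⟨h, -⟩
      · subst h
        exact decide_eq_true hz
      · subst h
        exact (hd' _ _ hz hw).elim
      · cases h
    | false =>
      rw [hs, if_neg (by simp)] at hr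
      have hw1 : w = 5 * b := by
        rcases hw01 with h | h
        · exact h
        · exfalso
          subst h
          have := h2.uniqL (mem1 b hb) hr hw
          omega
      subst hw1
      exact decide_eq_false fun hz => hd' _ _ hz hw
  have hfin : decide ((5 * ((lit φ (b % nn φ)).2 * nn φ), 5 * ((lit φ (b % nn φ)).2 * nn φ)) ∈ M₁) =
      (lit φ (b % nn φ)).1 := by
    rw [ha]
    change _ = sg φ b
    rw [← hst, decide_eq_decide, stC _ _ hx ht, hbx]
  have hq : φ[b % nn φ / 3]? = some c := by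
    rw [← hjb, List.getElem?_eq_getElem hj, hjc]
  rcases lit_cases hq with h | h | h
  · rw [h] at hfin
    exact Or.inl hfin
  · rw [h] at hfin
    exact Or.inr (Or.inl hfin)
  · rw [h] at hfin
    exact Or.inr (Or.inr hfin)

end Pool.Agent.N583.PM
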